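import Mathlib
import Pool.Agent.H523R2.Cap.Rate

/-!
The Harborth constant of `Z_3^r` is at least `2.22086^r + 1` for all large `r`.
-/

namespace Pool.Agent.Results.MP_f9a021_co.CapRate

open Pool.Agent.H523R2.Cap

/-- No `h` pairwise distinct elements of `A` have sum zero. -/
def WeaklyZeroSumFree {G : Type*} [AddCommGroup G] (h : ℕ) (A : Finset G) : Prop :=
  ∀ B ⊆ A, B.card = h → ∑ b ∈ B, b ≠ 0

/-- `τ^(G, h)`: the largest size of a weakly zero-`h`-sum-free subset of `G`. -/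
noncomputable def tau (G : Type*) [AddCommGroup G] [Fintype G] (h : ℕ) : ℕ :=
  sSup {t | ∃ A : Finset G, WeaklyZeroSumFree h A ∧ A.card = t}

theorem result : ∃ r0 : ℕ, ∀ r : ℕ, r0 ≤ r →
    (2.22086 : ℝ) ^ r ≤ (tau (Fin r → ZMod 3) 3 : ℝ) := by
  obtain ⟨n0, h⟩ := rate
  refine ⟨n0, fun n hn => ?_⟩
  obtain ⟨A, hA, hA'⟩ := h n hn
  refine hA'.trans ?_
  have hb : BddAbove {t | ∃ A : Finset (Fin n → ZMod 3), WeaklyZeroSumFree 3 A ∧ A.card = t} := by
    refine ⟨Fintype.card (Fin n → ZMod 3), ?_⟩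
    rintro t ⟨A, _, rfl⟩
    exact Finset.card_le_univ A
  have : A.card ≤ tau (Fin n → ZMod 3) 3 := le_csSup hb ⟨A, ?_, rfl⟩
  · exact_mod_cast this
  · intro B hB hB3 hs
    obtain ⟨a, b, c, hab, hac, hbc, rfl⟩ := Finset.card_eq_three.1 hB3
    rw [Finset.sum_insert (by simp [hab, hac]), Finset.sum_insert (by simp [hbc]),
      Finset.sum_singleton, ← add_assoc] at hs
    exact hab (hA.no_sum (hB (by simp)) (hB (by simp)) (hB (by simp)) hs)

end Pool.Agent.Results.MP_f9a021_co.CapRate
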